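import Pool.Agent.ZRT.StmtsB
import Pool.Agent.Helper67_ZRT.MNZ

/-!
# ZRT, row LEX: existence of lifts through `exp_m`
-/

noncomputable section

set_option autoImplicit false

open scoped ContDiff Topology RealInnerProductSpace
open Set Filter

namespace Pool.Agent.ZRT.H24

open Pool.Agent.RF Pool.Agent.MVS Pool.Agent.ZRT

/-- local inverse with values in a given open set -/
theorem loc_inv {F : E5 → E5} (hF : ContDiff ℝ ∞ F) {D : Set E5} (hD : IsOpen D) {z : E5}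
    (hz : z ∈ D) (hb : Function.Bijective (fderiv ℝ F z)) :
    ∃ (W U : Set E5) (g : E5 → E5), IsOpen W ∧ IsOpen U ∧ F z ∈ W ∧ z ∈ U ∧ ContinuousOn g W ∧
      (∀ w ∈ W, F (g w) = w ∧ g w ∈ D) ∧ ∀ u ∈ U, g (F u) = u := by
  obtain ⟨e, hef⟩ : ∃ e : E5 ≃L[ℝ] E5, (e : E5 →L[ℝ] E5) = fderiv ℝ F z := by
    refine ⟨(LinearEquiv.ofBijective (fderiv ℝ F z).toLinearMap hb).toContinuousLinearEquiv, ?_⟩
    ext x
    rfl
  have hs : HasStrictFDerivAt F (e : E5 →L[ℝ] E5) z := by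
    rw [hef]
    exact hF.contDiffAt.hasStrictFDerivAt (by simp)
  have hz' := hs.mem_toOpenPartialHomeomorph_source
  have hc := hs.toOpenPartialHomeomorph_coe
  set φ := hs.toOpenPartialHomeomorph F with hφ
  have hl : φ.symm (F z) = z := by
    have h := φ.left_inv hz'
    rwa [hc] at h
  refine ⟨φ.target ∩ φ.symm ⁻¹' D, φ.source, φ.symm, φ.isOpen_inter_preimage_symm hD,
    φ.open_source, ⟨?_, ?_⟩, hz', φ.continuousOn_symm.mono inter_subset_left, ?_, ?_⟩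
  · have h := φ.map_source hz'
    rwa [hc] at h
  · rw [mem_preimage, hl]
    exact hz
  · rintro w ⟨hw1, hw2⟩
    have h := φ.right_inv hw1
    rw [hc] at h
    exact ⟨h, hw2⟩
  · intro u hu
    have h := φ.left_inv hu
    rwa [hc] at h

/-- a partial lift on `[0, b]` -/
structure PLift (G : E5 → Bil E5) (ex : E5 × E5 → E5) (m : E5) (c y : ℝ → E5) (b : ℝ) : Prop where
  cont : ContinuousOn y (Icc 0 b)
  lt : ∀ s ∈ Icc (0 : ℝ) b, nm G m (y s) < Real.pi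
  eq : ∀ s ∈ Icc (0 : ℝ) b, ex (m, y s) = c s

/-- gluing of a lift with a local inverse -/
theorem glue {G : E5 → Bil E5} {ex : E5 × E5 → E5} {m : E5} {c y : ℝ → E5} {b b' : ℝ}
    (hb : 0 ≤ b) (hbb : b ≤ b') (hb' : b' ≤ 1) (hcc : ContinuousOn c (Icc 0 1))
    (hy : PLift G ex m c y b) {W : Set E5} {g : E5 → E5} (hg : ContinuousOn g W)
    (hW : ∀ w ∈ W, ex (m, g w) = w ∧ nm G m (g w) < Real.pi) (hcW : ∀ s ∈ Icc b b', c s ∈ W)
    (hgy : g (c b) = y b) :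
    ∃ y' : ℝ → E5, PLift G ex m c y' b' ∧ y' 0 = y 0 := by
  classical
  let y' : ℝ → E5 := fun s => if s ≤ b then y s else g (c s)
  have h1 : ∀ s ∈ Icc (0 : ℝ) b, y' s = y s := fun s hs => if_pos hs.2
  have h2 : ∀ s ∈ Icc b b', y' s = g (c s) := by
    intro s hs
    rcases eq_or_lt_of_le hs.1 with h | h
    · rw [← h, hgy]
      exact if_pos le_rfl
    · exact if_neg (not_le.2 h)
  refine ⟨y', ⟨?_, ?_, ?_⟩, h1 0 ⟨le_rfl, hb⟩⟩
  · rw [← Icc_union_Icc_eq_Icc hb hbb]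
    refine ContinuousOn.union_of_isClosed ?_ ?_ isClosed_Icc isClosed_Icc
    · exact hy.cont.congr h1
    · refine ContinuousOn.congr ?_ h2
      refine hg.comp (hcc.mono fun s hs => ⟨hb.trans hs.1, hs.2.trans hb'⟩) hcW
  · intro s hs
    rcases le_total s b with h | h
    · rw [h1 s ⟨hs.1, h⟩]
      exact hy.lt s ⟨hs.1, h⟩
    · rw [h2 s ⟨h, hs.2⟩]
      exact (hW _ (hcW s ⟨h, hs.2⟩)).2
  · intro s hs
    rcases le_total s b with h | h
    · rw [h1 s ⟨hs.1, h⟩]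
      exact hy.eq s ⟨hs.1, h⟩
    · rw [h2 s ⟨h, hs.2⟩]
      exact (hW _ (hcW s ⟨h, hs.2⟩)).1

theorem lex (hXde : XdeStatement) (hLnc : LncStatement) : LexStatement := by
  intro G ex hG hS hE m hm c y₀ l hl hsp h0 hlt
  have hF : ContDiff ℝ ∞ (fun u : E5 => ex (m, u)) := by
    have h1 : ContDiffOn ℝ ∞ (fun u : E5 => ex (m, u)) univ :=
      hE.smooth.comp (contDiff_const.prodMk contDiff_id).contDiffOn fun u _ => ⟨hm, mem_univ _⟩
    exact contDiffOn_univ.mp h1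
  have hnc : Continuous fun v : E5 => nm G m v :=
    Real.continuous_sqrt.comp ((G m).continuous.clm_apply continuous_id)
  have hD : IsOpen {v : E5 | nm G m v < Real.pi} := isOpen_lt hnc continuous_const
  have hloc : ∀ z : E5, nm G m z < Real.pi →
      ∃ (W U : Set E5) (g : E5 → E5), IsOpen W ∧ IsOpen U ∧ ex (m, z) ∈ W ∧ z ∈ U ∧
        ContinuousOn g W ∧ (∀ w ∈ W, ex (m, g w) = w ∧ nm G m (g w) < Real.pi) ∧
        ∀ u ∈ U, g (ex (m, u)) = u := fun z hz =>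
    loc_inv (F := fun u : E5 => ex (m, u)) hF hD hz (hXde G ex hG hS hE m hm z hz).2
  have hcc : ContinuousOn c (Icc 0 1) := by
    obtain ⟨c', hc'⟩ := hsp
    exact fun s hs => (hc' s hs).1.continuousWithinAt
  have hcW : ∀ b ∈ Icc (0 : ℝ) 1, ∀ W : Set E5, IsOpen W → c b ∈ W →
      ∃ δ : ℝ, 0 < δ ∧ ∀ s ∈ Icc (0 : ℝ) 1, |s - b| < δ → c s ∈ W := by
    intro b hb W hW hbW
    have h1 : c ⁻¹' W ∈ 𝓝[Icc 0 1] b := (hcc b hb).preimage_mem_nhdsWithin (hW.mem_nhds hbW)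
    rw [Metric.mem_nhdsWithin_iff] at h1
    obtain ⟨δ, hδ, h2⟩ := h1
    refine ⟨δ, hδ, fun s hs hsb => h2 ⟨?_, hs⟩⟩
    rw [Metric.mem_ball, Real.dist_eq]
    exact hsb
  set P : Set ℝ := {b | ∃ y : ℝ → E5, PLift G ex m c y b ∧ y 0 = y₀} with hP
  have hmono : ∀ b b' : ℝ, b ≤ b' → b' ∈ P → b ∈ P := by
    rintro b b' hbb ⟨y, hy, hy0⟩
    exact ⟨y, ⟨hy.cont.mono (Icc_subset_Icc_right hbb),
      fun s hs => hy.lt s (Icc_subset_Icc_right hbb hs),
      fun s hs => hy.eq s (Icc_subset_Icc_right hbb hs)⟩, hy0⟩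
  have hbound : ∀ b ∈ Icc (0 : ℝ) 1, ∀ y : ℝ → E5, PLift G ex m c y b → y 0 = y₀ →
      ∀ s ∈ Icc (0 : ℝ) b, nm G m (y s) ≤ nm G m y₀ + l * s := by
    intro b hb y hy hy0 s hs
    have h := hLnc G ex hG hS hE m hm c y l b hl hb.1 hb.2 hsp hy.cont hy.lt hy.eq s hs
    rwa [hy0] at h
  have hR : ∀ b ∈ Icc (0 : ℝ) 1, ∀ y : ℝ → E5, PLift G ex m c y b → y 0 = y₀ →
      nm G m (y b) ≤ nm G m y₀ + l := by
    intro b hb y hy hy0
    have h := hbound b hb y hy hy0 b ⟨hb.1, le_rfl⟩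
    have h2 : l * b ≤ l * 1 := mul_le_mul_of_nonneg_left hb.2 hl
    linarith
  have hK : IsCompact {v : E5 | nm G m v ≤ nm G m y₀ + l} := by
    obtain ⟨a, ha, hlow⟩ := H67.nm_lower hG hm
    refine Metric.isCompact_of_isClosed_isBounded (isClosed_le hnc continuous_const) ?_
    rw [isBounded_iff_forall_norm_le]
    refine ⟨(nm G m y₀ + l) / a, fun v hv => ?_⟩
    rw [le_div_iff₀ ha, mul_comm]
    exact (hlow v).trans hv
  have h0P : (0 : ℝ) ∈ P := by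
    refine ⟨fun _ => y₀, ⟨continuousOn_const, fun s _ => by linarith, fun s hs => ?_⟩, rfl⟩
    have : s = 0 := le_antisymm hs.2 hs.1
    rw [this]
    exact h0
  -- closedness
  have hclosed : IsClosed (P ∩ Icc (0 : ℝ) 1) := by
    refine IsSeqClosed.isClosed ?_
    intro u b hu hub
    have hb : b ∈ Icc (0 : ℝ) 1 :=
      isClosed_Icc.mem_of_tendsto hub (Eventually.of_forall fun n => (hu n).2)
    refine ⟨?_, hb⟩
    by_cases hex : ∃ n, b ≤ u n
    · obtain ⟨n, hn⟩ := hex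
      exact hmono b (u n) hn (hu n).1
    have hlt' : ∀ n, u n < b := fun n => not_le.1 fun h => hex ⟨n, h⟩
    choose y hy hy0 using fun n => (hu n).1
    have hzK : ∀ n, y n (u n) ∈ {v : E5 | nm G m v ≤ nm G m y₀ + l} :=
      fun n => hR (u n) (hu n).2 (y n) (hy n) (hy0 n)
    obtain ⟨z, hz, ψ, hψ, hlim⟩ := hK.tendsto_subseq hzK
    have hz' : nm G m z < Real.pi := lt_of_le_of_lt hz hlt
    have huψ : Tendsto (fun n => u (ψ n)) atTop (𝓝 b) := hub.comp hψ.tendsto_atTop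
    have hFz : ex (m, z) = c b := by
      have h1 : Tendsto (fun n => ex (m, y (ψ n) (u (ψ n)))) atTop (𝓝 (ex (m, z))) :=
        (hF.continuous.tendsto z).comp hlim
      have h2 : Tendsto (fun n => c (u (ψ n))) atTop (𝓝 (c b)) := by
        have h3 : Tendsto (fun n => u (ψ n)) atTop (𝓝[Icc 0 1] b) :=
          tendsto_nhdsWithin_iff.2 ⟨huψ, Eventually.of_forall fun n => (hu (ψ n)).2⟩
        exact (hcc b hb).tendsto.comp h3
      have h4 : (fun n => ex (m, y (ψ n) (u (ψ n)))) = fun n => c (u (ψ n)) := by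
        funext n
        exact (hy (ψ n)).eq _ ⟨(hu (ψ n)).2.1, le_rfl⟩
      rw [h4] at h1
      exact tendsto_nhds_unique h1 h2
    obtain ⟨W, U, g, hWo, hUo, hzW, hzU, hg, hgW, hgU⟩ := hloc z hz'
    rw [hFz] at hzW
    obtain ⟨δ, hδ, hδW⟩ := hcW b hb W hWo hzW
    have e1 : ∀ᶠ n in atTop, y (ψ n) (u (ψ n)) ∈ U := hlim.eventually (hUo.mem_nhds hzU)
    have e2 : ∀ᶠ n in atTop, dist (u (ψ n)) b < δ := huψ.eventually (Metric.ball_mem_nhds b hδ)
    obtain ⟨n, hn1, hn2⟩ := (e1.and e2).exists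
    rw [Real.dist_eq, abs_of_neg (by linarith [hlt' (ψ n)])] at hn2
    have hyn := hy (ψ n)
    have hun := (hu (ψ n)).2
    obtain ⟨y', hy', hy'0⟩ := glue hun.1 (hlt' (ψ n)).le hb.2 hcc hyn hg hgW
      (fun s hs => hδW s ⟨hun.1.trans hs.1, hs.2.trans hb.2⟩ (by
        rw [abs_lt]
        constructor <;> linarith [hs.1, hs.2])) (by
        rw [← hyn.eq _ ⟨hun.1, le_rfl⟩]
        exact hgU _ hn1)
    exact ⟨y', hy', hy'0.trans (hy0 (ψ n))⟩
  -- openness to the right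
  have hopen : ∀ x ∈ P ∩ Ico (0 : ℝ) 1, P ∈ 𝓝[>] x := by
    rintro x ⟨⟨y, hy, hy0⟩, hx⟩
    have hx' : x ∈ Icc (0 : ℝ) 1 := Ico_subset_Icc_self hx
    have hxx : x ∈ Icc (0 : ℝ) x := ⟨hx.1, le_rfl⟩
    obtain ⟨W, U, g, hWo, hUo, hzW, hzU, hg, hgW, hgU⟩ := hloc (y x) (hy.lt x hxx)
    rw [hy.eq x hxx] at hzW
    obtain ⟨δ, hδ, hδW⟩ := hcW x hx' W hWo hzW
    have hm1 : x < min (x + δ) 1 := lt_min (by linarith) hx.2
    refine mem_of_superset (Ioo_mem_nhdsGT hm1) ?_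
    intro t ht
    have ht1 : t < x + δ := ht.2.trans_le (min_le_left _ _)
    have ht2 : t < 1 := ht.2.trans_le (min_le_right _ _)
    obtain ⟨y', hy', hy'0⟩ := glue hx.1 ht.1.le ht2.le hcc hy hg hgW
      (fun s hs => hδW s ⟨hx.1.trans hs.1, hs.2.trans ht2.le⟩ (by
        rw [abs_lt]
        constructor <;> linarith [hs.1, hs.2])) (by
        rw [← hy.eq x hxx]
        exact hgU _ hzU)
    exact ⟨y', hy', hy'0.trans hy0⟩
  have h1P : (1 : ℝ) ∈ P :=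
    hclosed.Icc_subset_of_forall_mem_nhdsWithin h0P hopen ⟨zero_le_one, le_rfl⟩
  obtain ⟨y, hy, hy0⟩ := h1P
  exact ⟨y, ⟨hy.cont, hy.lt, hy.eq⟩, hy0, hbound 1 ⟨zero_le_one, le_rfl⟩ y hy hy0⟩

end Pool.Agent.ZRT.H24
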