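import Pool.Agent.ZRT.StmtsA
import Pool.Agent.Helper36_RF.Chr

/-!
# ZRT, row XFB: pointwise facts on the Jacobi fields along `t ↦ exp_m (t v)`
-/

noncomputable section

open scoped ContDiff Topology RealInnerProductSpace
set_option maxSynthPendingDepth 3
open Set MeasureTheory

namespace Pool.Agent.ZRT.H24

open Pool.Agent.RF Pool.Agent.MVS

theorem line_deriv (v : E5) (t : ℝ) : HasDerivAt (fun s : ℝ => s • v) v t := by
  simpa using (hasDerivAt_id t).smul_const v

theorem jf_deriv {F : E5 → E5} (hF : ContDiff ℝ ∞ F) (v w : E5) (t : ℝ) :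
    HasDerivAt (fun s : ℝ => fderiv ℝ F (s • v) (s • w))
      (fderiv ℝ (fderiv ℝ F) (t • v) v (t • w) + fderiv ℝ F (t • v) w) t := by
  have hd : DifferentiableAt ℝ (fderiv ℝ F) (t • v) :=
    ((hF.contDiffAt (x := t • v)).fderiv_right (m := ∞) (by simp)).differentiableAt (by simp)
  have h1 : HasDerivAt (fun s : ℝ => fderiv ℝ F (s • v))
      (fderiv ℝ (fderiv ℝ F) (t • v) v) t :=
    hd.hasFDerivAt.comp_hasDerivAt t (line_deriv v t)
  exact h1.clm_apply (line_deriv w t)

theorem chris_zero_right (G : E5 → Bil E5) (x v : E5) : chris G x v 0 = 0 := by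
  have h := chris_smul_right G x 0 v 0
  rwa [zero_smul, zero_smul] at h

theorem xfb (h1 : Xb1Statement) (h2 : XgaStatement) (h3 : XflStatement) : XfbStatement := by
  intro G ex hG hE m hm v w w' t c
  obtain ⟨b1, b2, b3, b4, b5, -⟩ := h1 G ex hG hE m hm
  have jd : ∀ (v w : E5) (t : ℝ), DifferentiableAt ℝ (Jf ex m v w) t :=
    fun v w t => (jf_deriv b1 v w t).differentiableAt
  have z0 : ∀ v : E5, ex (m, (0 : ℝ) • v) = m := by
    intro v
    rw [zero_smul]
    exact hE.zero m hm
  -- (1)
  have f1 : ∀ v w, Jf ex m v w 0 = 0 := by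
    intro v w
    unfold Jf dE
    rw [zero_smul ℝ w, map_zero]
  have t0 : ∀ v, Tf ex m v 0 = v := by
    intro v
    unfold Tf
    rw [zero_smul]
    exact b2 v
  -- (2)
  have f2 : ∀ v w, DJf G ex m v w 0 = w := by
    intro v w
    unfold DJf
    have hd : deriv (Jf ex m v w) 0 = w := by
      have h := (jf_deriv b1 v w 0).deriv
      rw [zero_smul ℝ w, map_zero, zero_add, zero_smul] at h
      have h' := b2 w
      unfold dE at h'
      rw [h'] at h
      exact h
    rw [hd, f1, chris_zero_right, add_zero]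
  -- (3)
  have f3 : ∀ w w' s, Jf ex m v (w + w') s = Jf ex m v w s + Jf ex m v w' s := by
    intro w w' s
    unfold Jf dE
    rw [smul_add, map_add]
  -- (4)
  have f4 : ∀ w s, Jf ex m v (c • w) s = c • Jf ex m v w s := by
    intro w s
    unfold Jf dE
    rw [smul_comm, map_smul]
  -- (5)
  have f5 : DJf G ex m v (w + w') t = DJf G ex m v w t + DJf G ex m v w' t := by
    unfold DJf
    have h : Jf ex m v (w + w') = fun s => Jf ex m v w s + Jf ex m v w' s :=
      funext (f3 w w')
    rw [h]
    have hd : deriv (fun s => Jf ex m v w s + Jf ex m v w' s) t =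
        deriv (Jf ex m v w) t + deriv (Jf ex m v w') t :=
      ((jd v w t).hasDerivAt.add (jd v w' t).hasDerivAt).deriv
    rw [hd]
    simp only
    rw [chris_add_right]
    abel
  -- (6)
  have f6 : DJf G ex m v (c • w) t = c • DJf G ex m v w t := by
    unfold DJf
    have h : Jf ex m v (c • w) = fun s => c • Jf ex m v w s := funext (f4 w)
    rw [h]
    have hd : deriv (fun s => c • Jf ex m v w s) t = c • deriv (Jf ex m v w) t :=
      ((jd v w t).hasDerivAt.const_smul c).deriv
    rw [hd]
    simp only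
    rw [chris_smul_right, smul_add]
  -- (7)
  have f7 : ∀ s : ℝ, Jf ex m v v s = s • Tf ex m v s := by
    intro s
    unfold Jf Tf dE
    rw [map_smul]
  -- (8)
  have f8 : ∀ t : ℝ, DJf G ex m v v t = Tf ex m v t := by
    intro t
    unfold DJf
    have h : Jf ex m v v = fun s => s • Tf ex m v s := funext f7
    have hd : HasDerivAt (fun s : ℝ => s • Tf ex m v s)
        (t • (- chris G (ex (m, t • v)) (Tf ex m v t) (Tf ex m v t)) + (1 : ℝ) • Tf ex m v t) t :=
      (hasDerivAt_id t).smul (b4 v t)
    rw [h, hd.deriv]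
    simp only
    rw [chris_smul_right, one_smul, smul_neg]
    abel
  -- (9)
  have f9 : ∀ s : ℝ, G (ex (m, s • v)) (Tf ex m v s) (Jf ex m v w s) = s * G m v w := by
    intro s
    by_cases hs : s = 0
    · subst hs
      rw [f1, map_zero, zero_mul]
    · have h := h2 G ex hG hE m hm (s • v) (s • w)
      have ha : dE ex m (s • v) (s • v) = s • Tf ex m v s := by
        unfold Tf dE
        rw [map_smul]
      have hb : dE ex m (s • v) (s • w) = Jf ex m v w s := rfl
      have hc1 : G (ex (m, s • v)) (s • Tf ex m v s) (Jf ex m v w s) =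
          s * G (ex (m, s • v)) (Tf ex m v s) (Jf ex m v w s) := by
        rw [map_smul, _root_.smul_apply, smul_eq_mul]
      have hc2 : G m (s • v) (s • w) = s * (s * G m v w) := by
        rw [map_smul, map_smul, _root_.smul_apply, smul_eq_mul, smul_eq_mul]
      rw [ha, hb, hc1, hc2] at h
      exact mul_left_cancel₀ hs h
  -- (10)
  have f10 : G (ex (m, t • v)) (Tf ex m v t) (DJf G ex m v w t) = G m v w := by
    by_cases ht : t = 0
    · subst ht
      rw [z0, t0, f2]
    · have h := (h3 G ex hG hE m hm v v w t).1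
      have he : (fun s => G (ex (m, s • v)) (Jf ex m v v s) (Jf ex m v w s)) =
          fun s : ℝ => s ^ 2 * G m v w := by
        funext s
        rw [f7, map_smul, _root_.smul_apply, smul_eq_mul, f9]
        ring
      rw [he, f8, f7, map_smul, _root_.smul_apply, smul_eq_mul, f9] at h
      have hd : HasDerivAt (fun s : ℝ => s ^ 2 * G m v w) (2 * t * G m v w) t := by
        have h5 := (hasDerivAt_pow 2 t).mul_const (G m v w)
        simpa using h5
      have hu := h.unique hd
      have : t * G (ex (m, t • v)) (Tf ex m v t) (DJf G ex m v w t) = t * G m v w := by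
        linarith
      exact mul_left_cancel₀ ht this
  refine ⟨f1 v w, f2 v w, f3 w w' t, f4 w t, f5, f6, f7 t, f8 t, f9 t, f10, ?_⟩
  intro hc
  have hcs : ∀ s : ℝ, s • c • v = (c * s) • v := by
    intro s
    rw [smul_smul, mul_comm]
  -- (11)
  have f11 : ∀ s : ℝ, Jf ex m (c • v) w s = c⁻¹ • Jf ex m v w (c * s) := by
    intro s
    unfold Jf dE
    rw [hcs, mul_smul c s w, map_smul, map_smul, map_smul, smul_smul, inv_mul_cancel₀ hc, one_smul]
  refine ⟨f11 t, ?_⟩
  -- (12)
  have hT : Tf ex m (c • v) t = c • Tf ex m v (c * t) := by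
    unfold Tf dE
    rw [hcs, map_smul]
  have hd : deriv (Jf ex m (c • v) w) t = deriv (Jf ex m v w) (c * t) := by
    have h : Jf ex m (c • v) w = fun s => c⁻¹ • Jf ex m v w (c * s) := funext f11
    have hl : HasDerivAt (fun s : ℝ => c * s) c t := by
      simpa using (hasDerivAt_id t).const_mul c
    have h5 : HasDerivAt (fun s : ℝ => Jf ex m v w (c * s)) (c • deriv (Jf ex m v w) (c * t)) t :=
      (jd v w (c * t)).hasDerivAt.scomp t hl
    have h6 : HasDerivAt (fun s : ℝ => c⁻¹ • Jf ex m v w (c * s))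
        (c⁻¹ • c • deriv (Jf ex m v w) (c * t)) t := h5.const_smul c⁻¹
    rw [h, h6.deriv, smul_smul, inv_mul_cancel₀ hc, one_smul]
  unfold DJf
  rw [hd, hT, f11, hcs, chris_smul_left, chris_smul_right, smul_smul, mul_inv_cancel₀ hc, one_smul]

end Pool.Agent.ZRT.H24
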